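import Pool.Agent.Helper3.Weak.Final

open MeasureTheory Pool.Agent.Helper3.Anderson

namespace Pool.Agent.Helper3.Superseded.WeakDisorder

/-- At weak disorder, the Lyapunov norm `L z` of the Green function of the Anderson model
`-Δ + λ V_ω` on `ℤ^d`, averaged over an energy window of half-width `δ ≥ λ² log³ (1/λ)` inside the
spectrum of `-Δ`, at height `ε` above the real axis, is at most `C (ε + δ) log (1/λ) |x|₁`. -/
theorem result (μ : Measure ℝ) [IsProbabilityMeasure μ] (hμ : BoundedDensity μ)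
    (d : ℕ) (a : ℝ) (ha : 0 < a) :
    ∃ C c lam0 : ℝ, 0 < C ∧ 0 < c ∧ 0 < lam0 ∧ ∀ lam : ℝ, 0 < lam → lam ≤ lam0 →
      ∃ L : ℂ → Site d → ℝ, (∀ z : ℂ, 0 < z.im → IsLyapunovNorm d μ lam z (L z)) ∧
        ∀ E0 ε δ : ℝ, a ≤ E0 → E0 ≤ 4 * d - a →
          (3 ≤ d ∨ ∀ i : ℕ, i ≤ d → a ≤ |E0 - 4 * i|) →
          0 < ε → ε ≤ c → lam ^ 2 * Real.log (1 / lam) ^ 3 ≤ δ → δ ≤ c →
          ∀ x : Site d,
            IntervalIntegrable (fun E : ℝ => L (E + ε * Complex.I) x) volume (E0 - δ) (E0 + δ) ∧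
            (2 * δ)⁻¹ * ∫ E in (E0 - δ)..(E0 + δ), L (E + ε * Complex.I) x ≤
              C * (ε + δ) * Real.log (1 / lam) * ∑ j, |(x j : ℝ)| := by
  obtain ⟨C, c, lam0, hC, hc, hlam0, hmain⟩ := Pool.Agent.Helper3.Weak.weak hμ d a ha
  refine ⟨C, c, lam0, hC, hc, hlam0, fun lam hlam hlam1 => ?_⟩
  obtain ⟨M, K, h⟩ := goodLaw_of hμ.supp hμ.dens
  have hex : ∀ z : ℂ, ∃ L : Site d → ℝ, 0 < z.im → IsLyapunovNorm d μ lam z L := by
    intro z
    by_cases hz : 0 < z.im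
    · exact ⟨_, fun _ => isLyapunovNorm_LL h hlam d hz⟩
    · exact ⟨0, fun h0 => absurd h0 hz⟩
  choose L hL using hex
  refine ⟨L, hL, fun E0 ε δ h1 h2 h3 hε hεc hδ hδc x => ?_⟩
  exact hmain lam hlam hlam1 E0 ε δ h1 h2 h3 hε hεc hδ hδc (fun E => L (E + ε * Complex.I))
    (fun E => hL _ (by simpa using hε)) x

end Pool.Agent.Helper3.Superseded.WeakDisorder
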